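import Mathlib

/-!
# Extension of joint solutions of two linear equations (helper756)

Mathlib-only part: products, one-dimensional extension by constant coefficients and the sum.
-/

set_option autoImplicit false

namespace Pool.Agent.N756.LS

open Set

/-- The nearest point of an interval. -/
noncomputable def clp (a b x : ℝ) : ℝ := max a (min b x)

theorem clp_cont (a b : ℝ) : Continuous (clp a b) :=
  continuous_const.max (continuous_const.min continuous_id)

/-- Uniqueness for `w'' = P w`. -/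
theorem uniq {P w w' : ℝ → ℝ} (hP : Continuous P) (h1 : ∀ x, HasDerivAt w (w' x) x)
    (h2 : ∀ x, HasDerivAt w' (P x * w x) x) (x₀ : ℝ) (h3 : w x₀ = 0) (h4 : w' x₀ = 0) (x : ℝ) :
    w x = 0 := by
  obtain ⟨a, b, ha, hb⟩ : ∃ a b, x₀ ∈ Ioo a b ∧ x ∈ Ioo a b :=
    ⟨min x₀ x - 1, max x₀ x + 1,
      ⟨by linarith [min_le_left x₀ x], by linarith [le_max_left x₀ x]⟩,
      ⟨by linarith [min_le_right x₀ x], by linarith [le_max_right x₀ x]⟩⟩
  obtain ⟨M, hM⟩ := (isCompact_Icc (a := a) (b := b)).exists_bound_of_continuousOn hP.continuousOn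
  have hM0 : 0 ≤ M := (norm_nonneg _).trans (hM x₀ ⟨ha.1.le, ha.2.le⟩)
  have hv : ∀ t ∈ Ioo a b, LipschitzOnWith (Real.toNNReal (1 + M))
      (fun z : ℝ × ℝ => (z.2, P t * z.1)) univ := by
    intro t ht
    refine LipschitzOnWith.of_dist_le_mul fun z _ z' _ => ?_
    rw [Real.coe_toNNReal _ (by linarith), Prod.dist_eq, Prod.dist_eq]
    have e1 : dist z.1 z'.1 ≤ max (dist z.1 z'.1) (dist z.2 z'.2) := le_max_left _ _
    have e2 : dist z.2 z'.2 ≤ max (dist z.1 z'.1) (dist z.2 z'.2) := le_max_right _ _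
    have e0 : 0 ≤ dist z.1 z'.1 := dist_nonneg
    have e3 := hM t ⟨ht.1.le, ht.2.le⟩
    refine max_le ?_ ?_
    · show dist z.2 z'.2 ≤ _
      nlinarith
    · show dist (P t * z.1) (P t * z'.1) ≤ _
      have e4 : dist (P t * z.1) (P t * z'.1) = ‖P t‖ * dist z.1 z'.1 := by
        rw [Real.dist_eq, Real.dist_eq, ← mul_sub, abs_mul, Real.norm_eq_abs]
      rw [e4]
      have e5 : ‖P t‖ * dist z.1 z'.1 ≤ M * dist z.1 z'.1 := by gcongr
      nlinarith
  have h5 := ODE_solution_unique_of_mem_Ioo (f := fun t => (w t, w' t))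
    (g := fun _ => ((0 : ℝ), (0 : ℝ))) (s := fun _ => univ) hv ha
    (fun t _ => ⟨(h1 t).prodMk (h2 t), mem_univ _⟩)
    (fun t _ => ⟨by
      have h6 := hasDerivAt_const t ((0 : ℝ), (0 : ℝ))
      refine h6.congr_deriv ?_
      simp only [mul_zero]
      rfl, mem_univ _⟩) (by simp [h3, h4])
  have h7 := congrArg Prod.fst (h5 hb)
  exact h7

/-- Gluing of differentiable functions. -/
theorem glue {f g f' g' : ℝ → ℝ} {τ : ℝ} (hf : ∀ x, HasDerivAt f (f' x) x)
    (hg : ∀ x, HasDerivAt g (g' x) x) (h0 : f τ = g τ) (h1 : f' τ = g' τ) (x : ℝ) :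
    HasDerivAt (fun x => if τ ≤ x then f x else g x) (if τ ≤ x then f' x else g' x) x := by
  rcases lt_trichotomy x τ with h | h | h
  · rw [if_neg (not_le.2 h)]
    refine (hg x).congr_of_eventuallyEq ?_
    filter_upwards [Iio_mem_nhds h] with y hy
    rw [if_neg (not_le.2 hy)]
  · subst h
    rw [if_pos le_rfl]
    have a1 : HasDerivWithinAt (fun y => if x ≤ y then f y else g y) (f' x) (Set.Ici x) x := by
      refine (hf x).hasDerivWithinAt.congr (fun y hy => ?_) ?_
      · exact if_pos hy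
      · exact if_pos le_rfl
    have a2 : HasDerivWithinAt (fun y => if x ≤ y then f y else g y) (f' x) (Set.Iic x) x := by
      rw [h1]
      refine (hg x).hasDerivWithinAt.congr (fun y hy => ?_) ?_
      · by_cases h : x ≤ y
        · have h2 : y = x := le_antisymm hy h
          subst h2
          rw [if_pos le_rfl, h0]
        · rw [if_neg h]
      · rw [if_pos le_rfl, h0]
    have a3 := a2.union a1
    rw [Set.Iic_union_Ici] at a3
    exact a3.hasDerivAt Filter.univ_mem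
  · rw [if_pos h.le]
    refine (hf x).congr_of_eventuallyEq ?_
    filter_upwards [Ioi_mem_nhds h] with y hy
    rw [if_pos (le_of_lt hy)]

open Complex in
/-- Solutions of the equation with constant coefficients. -/
theorem exists_solC (μ : ℝ) (A B : ℂ) (τ : ℝ) : ∃ v v' : ℝ → ℂ, (∀ x, HasDerivAt v (v' x) x) ∧
    (∀ x, HasDerivAt v' ((μ : ℂ) * v x) x) ∧ v τ = A ∧ v' τ = B := by
  have hlin : ∀ x : ℝ, HasDerivAt (fun x : ℝ => ((x : ℂ) - τ)) 1 x := fun x =>
    (Complex.ofRealCLM.hasDerivAt (x := x)).sub_const _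
  by_cases hμ : μ = 0
  · subst hμ
    refine ⟨fun x => A + B * ((x : ℂ) - τ), fun _ => B, fun x => ?_, fun x => ?_, ?_, rfl⟩
    · have h1 := ((hlin x).const_mul B).const_add A
      rwa [mul_one] at h1
    · rw [ofReal_zero, zero_mul]
      exact hasDerivAt_const x B
    · simp
  · obtain ⟨z, hz⟩ : ∃ z : ℂ, z ^ 2 = (μ : ℂ) := IsAlgClosed.exists_pow_nat_eq _ (by norm_num)
    have hz0 : z ≠ 0 := by
      rintro rfl
      apply hμ
      have h1 : (μ : ℂ) = 0 := by
        rw [← hz]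
        ring
      exact_mod_cast h1
    have hE : ∀ (c : ℂ) (x : ℝ), HasDerivAt (fun x : ℝ => Complex.exp (c * ((x : ℂ) - τ)))
        (c * Complex.exp (c * ((x : ℂ) - τ))) x := by
      intro c x
      have h1 := ((hlin x).const_mul c).cexp
      rw [mul_one] at h1
      rwa [mul_comm] at h1
    refine ⟨fun x => (A + B / z) / 2 * Complex.exp (z * ((x : ℂ) - τ)) +
      (A - B / z) / 2 * Complex.exp (-z * ((x : ℂ) - τ)),
      fun x => (A + B / z) / 2 * (z * Complex.exp (z * ((x : ℂ) - τ))) +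
      (A - B / z) / 2 * (-z * Complex.exp (-z * ((x : ℂ) - τ))),
      fun x => ((hE z x).const_mul _).add ((hE (-z) x).const_mul _), fun x => ?_, ?_, ?_⟩
    · have h1 := (((hE z x).const_mul z).const_mul ((A + B / z) / 2)).add
        (((hE (-z) x).const_mul (-z)).const_mul ((A - B / z) / 2))
      refine h1.congr_deriv ?_
      rw [← hz]
      ring
    · simp
      ring
    · simp
      field_simp
      ring

theorem re_deriv {f : ℝ → ℂ} {f' : ℂ} {x : ℝ} (h : HasDerivAt f f' x) :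
    HasDerivAt (fun t => (f t).re) f'.re x :=
  Complex.reCLM.hasFDerivAt.comp_hasDerivAt x h

theorem exists_sol (μ : ℝ) (A B : ℝ) (τ : ℝ) : ∃ v v' : ℝ → ℝ, (∀ x, HasDerivAt v (v' x) x) ∧
    (∀ x, HasDerivAt v' (μ * v x) x) ∧ v τ = A ∧ v' τ = B := by
  obtain ⟨v, v', h1, h2, h3, h4⟩ := exists_solC μ A B τ
  refine ⟨fun x => (v x).re, fun x => (v' x).re, fun x => re_deriv (h1 x), fun x => ?_, ?_, ?_⟩
  · have h5 := re_deriv (h2 x)
    rwa [Complex.re_ofReal_mul] at h5
  · show (v τ).re = A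
    rw [h3, Complex.ofReal_re]
  · show (v' τ).re = B
    rw [h4, Complex.ofReal_re]

/-- One-dimensional extension. -/
theorem ext1 {P u u' : ℝ → ℝ} (h1 : ∀ x, HasDerivAt u (u' x) x)
    (h2 : ∀ x, HasDerivAt u' (P x * u x) x) (a b : ℝ) (hab : a ≤ b) :
    ∃ U U' : ℝ → ℝ, (∀ x, HasDerivAt U (U' x) x) ∧
      (∀ x, HasDerivAt U' (P (clp a b x) * U x) x) ∧ ∀ x ∈ Icc a b, U x = u x := by
  obtain ⟨v, v', hv, hv', v0, v1⟩ := exists_sol (P b) (u b) (u' b) b
  have g1 := glue hv h1 v0 v1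
  have g2 := glue hv' h2 v1 (by rw [v0])
  set G : ℝ → ℝ := fun x => if b ≤ x then v x else u x with hG
  set G' : ℝ → ℝ := fun x => if b ≤ x then v' x else u' x with hG'
  have g2' : ∀ x, HasDerivAt G' (P (min b x) * G x) x := by
    intro x
    refine (g2 x).congr_deriv ?_
    by_cases hx : b ≤ x
    · simp only [hG, if_pos hx, min_eq_left hx]
    · simp only [hG, if_neg hx, min_eq_right (not_le.1 hx).le]
  obtain ⟨w, w', hw, hw', w0, w1⟩ := exists_sol (P a) (G a) (G' a) a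
  have k1 := glue g1 hw w0.symm w1.symm
  have k2 := glue g2' hw' w1.symm (by rw [w0, min_eq_right hab])
  refine ⟨_, _, k1, fun x => ?_, fun x hx => ?_⟩
  · refine (k2 x).congr_deriv ?_
    by_cases hx : a ≤ x
    · simp only [if_pos hx, clp, max_eq_right (le_min hab hx)]
    · simp only [if_neg hx, clp]
      rw [min_eq_right ((not_le.1 hx).le.trans hab), max_eq_left (not_le.1 hx).le]
  · simp only [if_pos hx.1, hG]
    by_cases hb : b ≤ x
    · have hxb : x = b := le_antisymm hx.2 hb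
      rw [if_pos hb, hxb, v0]
    · rw [if_neg hb]

/-- A joint solution is a sum of two products. -/
theorem prods {P Q : ℝ → ℝ} {e ex ey : ℝ → ℝ → ℝ} (hP : Continuous P)
    (h1 : ∀ x y, HasDerivAt (fun t => e t y) (ex x y) x)
    (h2 : ∀ x y, HasDerivAt (fun t => ex t y) (P x * e x y) x)
    (h3 : ∀ x y, HasDerivAt (fun t => e x t) (ey x y) y)
    (h4 : ∀ x y, HasDerivAt (fun t => ey x t) (Q y * e x y) y) :
    ∃ u u' v v' : Fin 2 → ℝ → ℝ, (∀ k x, HasDerivAt (u k) (u' k x) x) ∧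
      (∀ k x, HasDerivAt (u' k) (P x * u k x) x) ∧ (∀ k y, HasDerivAt (v k) (v' k y) y) ∧
      (∀ k y, HasDerivAt (v' k) (Q y * v k y) y) ∧
      ∀ x y, e x y = ∑ k, u k x * v k y := by
  -- the Wronskian is constant
  obtain ⟨Wr, hWr⟩ : ∃ Wr : ℝ → ℝ → ℝ → ℝ,
    Wr = fun y z x => e x y * ex x z - ex x y * e x z := ⟨_, rfl⟩
  have hW : ∀ y z x, HasDerivAt (Wr y z) 0 x := by
    intro y z x
    rw [hWr]
    have k1 := ((h1 x y).mul (h2 x z)).sub ((h2 x y).mul (h1 x z))
    refine k1.congr_deriv ?_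
    ring
  have hWc : ∀ y z x x', Wr y z x = Wr y z x' := fun y z x x' =>
    is_const_of_deriv_eq_zero (fun t => (hW y z t).differentiableAt) (fun t => (hW y z t).deriv)
      x x'
  by_cases hA : ∀ y z, Wr y z 0 = 0
  · by_cases hz : ∀ x y, e x y = 0
    · refine ⟨fun _ _ => 0, fun _ _ => 0, fun _ _ => 0, fun _ _ => 0, fun k x => ?_, fun k x => ?_,
        fun k x => ?_, fun k x => ?_, fun x y => ?_⟩
      · exact hasDerivAt_const x 0
      · simpa using hasDerivAt_const x (0 : ℝ)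
      · exact hasDerivAt_const x 0
      · simpa using hasDerivAt_const x (0 : ℝ)
      · simp [hz]
    · push Not at hz
      obtain ⟨x₀, y₀, hxy⟩ := hz
      have key : ∀ x y, e x y = e x y₀ * (e x₀ y / e x₀ y₀) := by
        intro x y
        have c1 : ∀ t, HasDerivAt (fun t => e t y - e x₀ y / e x₀ y₀ * e t y₀)
            (ex t y - e x₀ y / e x₀ y₀ * ex t y₀) t := fun t =>
          (h1 t y).sub ((h1 t y₀).const_mul _)
        have c2 : ∀ t, HasDerivAt (fun t => ex t y - e x₀ y / e x₀ y₀ * ex t y₀)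
            (P t * (e t y - e x₀ y / e x₀ y₀ * e t y₀)) t := fun t =>
          ((h2 t y).sub ((h2 t y₀).const_mul _)).congr_deriv (by ring)
        have c3 : e x₀ y * ex x₀ y₀ - ex x₀ y * e x₀ y₀ = 0 := by
          have := hWc y y₀ x₀ 0
          rw [hA] at this
          rwa [hWr] at this
        have c4 := uniq hP c1 c2 x₀ (by field_simp; ring) (by
          field_simp
          linarith) x
        linarith
      refine ⟨![fun x => e x y₀, fun _ => 0], ![fun x => ex x y₀, fun _ => 0],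
        ![fun y => e x₀ y / e x₀ y₀, fun _ => 0], ![fun y => ey x₀ y / e x₀ y₀, fun _ => 0],
        fun k x => ?_, fun k x => ?_, fun k y => ?_, fun k y => ?_, fun x y => ?_⟩
      · fin_cases k
        · exact h1 x y₀
        · exact hasDerivAt_const x 0
      · fin_cases k
        · exact h2 x y₀
        · show HasDerivAt (fun _ => (0 : ℝ)) (P x * 0) x
          rw [mul_zero]
          exact hasDerivAt_const x 0
      · fin_cases k
        · exact (h3 x₀ y).div_const _
        · exact hasDerivAt_const y 0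
      · fin_cases k
        · show HasDerivAt (fun y => ey x₀ y / e x₀ y₀) (Q y * (e x₀ y / e x₀ y₀)) y
          exact ((h4 x₀ y).div_const _).congr_deriv (by ring)
        · show HasDerivAt (fun _ => (0 : ℝ)) (Q y * 0) y
          rw [mul_zero]
          exact hasDerivAt_const y 0
      · rw [Fin.sum_univ_two, key x y]
        show _ = e x y₀ * (e x₀ y / e x₀ y₀) + 0 * 0
        ring
  · push Not at hA
    obtain ⟨y₀, y₁, hy⟩ := hA
    -- three solutions
    have h3s : ∀ x y, e x y * Wr y₀ y₁ 0 = e x y₀ * Wr y y₁ 0 + e x y₁ * Wr y₀ y 0 := by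
      intro x y
      rw [hWc y₀ y₁ 0 x, hWc y y₁ 0 x, hWc y₀ y 0 x, hWr]
      ring
    -- a nonzero minor
    obtain ⟨x₀, x₁, hd⟩ : ∃ x₀ x₁, e x₀ y₀ * e x₁ y₁ - e x₀ y₁ * e x₁ y₀ ≠ 0 := by
      by_contra hcon
      push Not at hcon
      apply hy
      have k1 : HasDerivAt (fun t => e 0 y₀ * e t y₁ - e 0 y₁ * e t y₀)
          (e 0 y₀ * ex 0 y₁ - e 0 y₁ * ex 0 y₀) 0 :=
        ((h1 0 y₁).const_mul _).sub ((h1 0 y₀).const_mul _)
      have k2 : (fun t => e 0 y₀ * e t y₁ - e 0 y₁ * e t y₀) = fun _ => 0 := funext fun t =>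
        hcon 0 t
      rw [k2] at k1
      have k3 := k1.unique (hasDerivAt_const 0 0)
      rw [hWr]
      linarith
    obtain ⟨d, hdd⟩ : ∃ d, d = e x₀ y₀ * e x₁ y₁ - e x₀ y₁ * e x₁ y₀ := ⟨_, rfl⟩
    rw [← hdd] at hd
    have key : ∀ x y, e x y = e x y₀ * ((e x₀ y * e x₁ y₁ - e x₁ y * e x₀ y₁) / d) +
        e x y₁ * ((e x₀ y₀ * e x₁ y - e x₁ y₀ * e x₀ y) / d) := by
      intro x y
      have k1 := h3s x y
      have k2 := h3s x₀ y
      have k3 := h3s x₁ y
      obtain ⟨w, hw⟩ : ∃ w, w = Wr y₀ y₁ 0 := ⟨_, rfl⟩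
      rw [← hw] at k1 k2 k3 hy
      obtain ⟨A, hA⟩ : ∃ A, A = Wr y y₁ 0 / w := ⟨_, rfl⟩
      obtain ⟨B, hB⟩ : ∃ B, B = Wr y₀ y 0 / w := ⟨_, rfl⟩
      have j : ∀ t, e t y * w = e t y₀ * Wr y y₁ 0 + e t y₁ * Wr y₀ y 0 →
          e t y = e t y₀ * A + e t y₁ * B := by
        intro t ht
        rw [hA, hB]
        field_simp
        linarith
      have j1 := j x k1
      have j2 := j x₀ k2
      have j3 := j x₁ k3
      have i1 : (e x₀ y * e x₁ y₁ - e x₁ y * e x₀ y₁) / d = A := by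
        rw [div_eq_iff hd, j2, j3, hdd]
        ring
      have i2 : (e x₀ y₀ * e x₁ y - e x₁ y₀ * e x₀ y) / d = B := by
        rw [div_eq_iff hd, j2, j3, hdd]
        ring
      rw [i1, i2]
      exact j1
    refine ⟨![fun x => e x y₀, fun x => e x y₁], ![fun x => ex x y₀, fun x => ex x y₁],
      ![fun y => (e x₀ y * e x₁ y₁ - e x₁ y * e x₀ y₁) / d,
        fun y => (e x₀ y₀ * e x₁ y - e x₁ y₀ * e x₀ y) / d],
      ![fun y => (ey x₀ y * e x₁ y₁ - ey x₁ y * e x₀ y₁) / d,
        fun y => (e x₀ y₀ * ey x₁ y - e x₁ y₀ * ey x₀ y) / d],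
      fun k x => ?_, fun k x => ?_, fun k y => ?_, fun k y => ?_, fun x y => ?_⟩
    · fin_cases k
      · exact h1 x y₀
      · exact h1 x y₁
    · fin_cases k
      · exact h2 x y₀
      · exact h2 x y₁
    · fin_cases k
      · exact (((h3 x₀ y).mul_const _).sub ((h3 x₁ y).mul_const _)).div_const _
      · exact (((h3 x₁ y).const_mul _).sub ((h3 x₀ y).const_mul _)).div_const _
    · fin_cases k
      · show HasDerivAt (fun y => (ey x₀ y * e x₁ y₁ - ey x₁ y * e x₀ y₁) / d)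
          (Q y * ((e x₀ y * e x₁ y₁ - e x₁ y * e x₀ y₁) / d)) y
        exact ((((h4 x₀ y).mul_const _).sub ((h4 x₁ y).mul_const _)).div_const _).congr_deriv
          (by ring)
      · show HasDerivAt (fun y => (e x₀ y₀ * ey x₁ y - e x₁ y₀ * ey x₀ y) / d)
          (Q y * ((e x₀ y₀ * e x₁ y - e x₁ y₀ * e x₀ y) / d)) y
        exact ((((h4 x₁ y).const_mul _).sub ((h4 x₀ y).const_mul _)).div_const _).congr_deriv
          (by ring)
    · rw [Fin.sum_univ_two]
      exact key x y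

theorem cont_of_deriv {u u' : ℝ → ℝ} (h : ∀ x, HasDerivAt u (u' x) x) : Continuous u :=
  continuous_iff_continuousAt.2 fun x => (h x).continuousAt

/-- The double sum. -/
noncomputable def ds {n : ℕ} (c : Fin n → ℝ) (U V : Fin n → Fin 2 → ℝ → ℝ) (x y : ℝ) : ℝ :=
  ∑ i, c i * ∑ k, U i k x * V i k y

theorem ds_cont {n : ℕ} (c : Fin n → ℝ) {U V : Fin n → Fin 2 → ℝ → ℝ}
    (hU : ∀ i k, Continuous (U i k)) (hV : ∀ i k, Continuous (V i k)) :
    Continuous (Function.uncurry (ds c U V)) := by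
  have h : Continuous fun p : ℝ × ℝ => ∑ i, c i * ∑ k, U i k p.1 * V i k p.2 := by
    refine continuous_finsetSum _ fun i _ => ?_
    refine continuous_const.mul ?_
    refine continuous_finsetSum _ fun k _ => ?_
    exact ((hU i k).comp continuous_fst).mul ((hV i k).comp continuous_snd)
  exact h

theorem ds_dx {n : ℕ} (c : Fin n → ℝ) {U U' V : Fin n → Fin 2 → ℝ → ℝ}
    (hU : ∀ i k x, HasDerivAt (U i k) (U' i k x) x) (x y : ℝ) :
    HasDerivAt (fun t => ds c U V t y) (ds c U' V x y) x := by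
  unfold ds
  refine HasDerivAt.fun_sum fun i _ => ?_
  refine HasDerivAt.const_mul _ ?_
  exact HasDerivAt.fun_sum fun k _ => (hU i k x).mul_const _

theorem ds_dy {n : ℕ} (c : Fin n → ℝ) {U V V' : Fin n → Fin 2 → ℝ → ℝ}
    (hV : ∀ i k y, HasDerivAt (V i k) (V' i k y) y) (x y : ℝ) :
    HasDerivAt (fun t => ds c U V x t) (ds c U V' x y) y := by
  unfold ds
  refine HasDerivAt.fun_sum fun i _ => ?_
  refine HasDerivAt.const_mul _ ?_
  exact HasDerivAt.fun_sum fun k _ => (hV i k y).const_mul _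

/-- The extension of a sum of joint solutions. -/
theorem ext_main {f g : ℝ → ℝ} (hf : Continuous f) (hg : Continuous g) (lam : ℝ) {n : ℕ}
    (μ c : Fin n → ℝ) (e ex ey : Fin n → ℝ → ℝ → ℝ)
    (h1 : ∀ i x y, HasDerivAt (fun t => e i t y) (ex i x y) x)
    (h2 : ∀ i x y, HasDerivAt (fun t => ex i t y) ((μ i - lam * f x) * e i x y) x)
    (h3 : ∀ i x y, HasDerivAt (fun t => e i x t) (ey i x y) y)
    (h4 : ∀ i x y, HasDerivAt (fun t => ey i x t) ((-μ i - lam * g y) * e i x y) y)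
    (a₀ a₁ b₀ b₁ : ℝ) (ha : a₀ ≤ a₁) (hb : b₀ ≤ b₁) :
    ∃ Φ Φx Φxx Φy Φyy : ℝ → ℝ → ℝ,
      (Continuous (Function.uncurry Φ) ∧ Continuous (Function.uncurry Φx) ∧
        Continuous (Function.uncurry Φxx) ∧ Continuous (Function.uncurry Φy) ∧
        Continuous (Function.uncurry Φyy)) ∧
      (∀ x y, HasDerivAt (fun t => Φ t y) (Φx x y) x) ∧
      (∀ x y, HasDerivAt (fun t => Φx t y) (Φxx x y) x) ∧
      (∀ x y, HasDerivAt (fun t => Φ x t) (Φy x y) y) ∧
      (∀ x y, HasDerivAt (fun t => Φy x t) (Φyy x y) y) ∧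
      (∀ x y, Φxx x y + Φyy x y =
        -(lam * (f (clp a₀ a₁ x) + g (clp b₀ b₁ y)) * Φ x y)) ∧
      ∀ x ∈ Icc a₀ a₁, ∀ y ∈ Icc b₀ b₁, Φ x y = ∑ i, c i * e i x y := by
  have hPc : ∀ i, Continuous fun x => μ i - lam * f x := fun i => by fun_prop
  choose u u' v v' p1 p2 p3 p4 p5 using fun i => prods (hPc i) (h1 i) (h2 i) (h3 i) (h4 i)
  choose U U' q1 q2 q3 using fun i k => ext1 (p1 i k) (p2 i k) a₀ a₁ ha
  choose V V' r1 r2 r3 using fun i k => ext1 (p3 i k) (p4 i k) b₀ b₁ hb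
  have cU : ∀ i k, Continuous (U i k) := fun i k => cont_of_deriv (q1 i k)
  have cU' : ∀ i k, Continuous (U' i k) := fun i k => cont_of_deriv (q2 i k)
  have cV : ∀ i k, Continuous (V i k) := fun i k => cont_of_deriv (r1 i k)
  have cV' : ∀ i k, Continuous (V' i k) := fun i k => cont_of_deriv (r2 i k)
  have ca := clp_cont a₀ a₁
  have cb := clp_cont b₀ b₁
  refine ⟨ds c U V, ds c U' V,
    ds c (fun i k x => (μ i - lam * f (clp a₀ a₁ x)) * U i k x) V, ds c U V',
    ds c U (fun i k y => (-μ i - lam * g (clp b₀ b₁ y)) * V i k y),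
    ⟨ds_cont c cU cV, ds_cont c cU' cV, ds_cont c (fun i k => ?_) cV, ds_cont c cU cV',
      ds_cont c cU fun i k => ?_⟩, ds_dx c q1, ds_dx c q2, ds_dy c r1, ds_dy c r2,
      fun x y => ?_, fun x hx y hy => ?_⟩
  · have := cU i k
    fun_prop
  · have := cV i k
    fun_prop
  · unfold ds
    rw [← Finset.sum_add_distrib, Finset.mul_sum, ← Finset.sum_neg_distrib]
    refine Finset.sum_congr rfl fun i _ => ?_
    rw [Fin.sum_univ_two, Fin.sum_univ_two, Fin.sum_univ_two]
    ring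
  · unfold ds
    refine Finset.sum_congr rfl fun i _ => ?_
    rw [p5 i x y]
    congr 1
    refine Finset.sum_congr rfl fun k _ => ?_
    rw [q3 i k x hx, r3 i k y hy]

end Pool.Agent.N756.LS
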