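import Pool.Agent.N266.LS.Stm
import Pool.Agent.N756.LS.Ext0

/-!
# Extension of separated solutions with clamped potentials (helper756)
-/

set_option autoImplicit false

namespace Pool.Agent.N756.LS

open Set
open Pool.Agent.R220.LV (W SP decomp joint_deriv Aop)
open Pool.Agent.N273.LT (stFin)

theorem t_EXT : Pool.Agent.N266.LS.S_EXT := by
  intro f g hf hg L lam hL hlam φ hφ a₀ a₁ b₀ b₁ ha hb
  have := stFin f g hf hg L lam hL hlam
  obtain ⟨μ, e, h1, h2, h3, h4⟩ := decomp (lam := lam) hf hg hL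
  obtain ⟨c, hc⟩ := h4 φ hφ
  have hSP : ∀ i, ∃ φx φxx φy φyy : ℝ → ℝ → ℝ,
      SP f g L lam (fun x y => e i (x, y)) φx φxx φy φyy := fun i => (h1 i).2
  choose φx φxx φy φyy hSP using hSP
  obtain ⟨Φ, Φx, Φxx, Φy, Φyy, ⟨q1, q2, q3, q4, q5⟩, q6, q7, q8, q9, q10, q11⟩ :=
    ext_main hf hg lam μ c (fun i x y => e i (x, y)) φx φy
      (fun i x y => (hSP i).s.dx x y)
      (fun i x y => ((hSP i).s.dxx x y).congr_deriv (joint_deriv (hSP i) (h3 i) x y).1)
      (fun i x y => (hSP i).s.dy x y)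
      (fun i x y => ((hSP i).s.dyy x y).congr_deriv (joint_deriv (hSP i) (h3 i) x y).2)
      a₀ a₁ b₀ b₁ ha hb
  refine ⟨Φ, Φx, Φxx, Φy, Φyy, ⟨?_, q1, q2, q3, q4, q5, q6, q7, q8, q9, q10⟩,
    fun x hx y hy => ?_⟩
  · have ca := clp_cont a₀ a₁
    have cb := clp_cont b₀ b₁
    show Continuous fun p : ℝ × ℝ => lam * (f (clp a₀ a₁ p.1) + g (clp b₀ b₁ p.2))
    fun_prop
  · rw [q11 x hx y hy, hc]
    simp [Finset.sum_apply]

end Pool.Agent.N756.LS
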